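import Pool.Agent.Run7.h619.PR.Defs

/-!
# CH (project PR of helper619): following a pattern in the fibres
-/

set_option autoImplicit false

open scoped Manifold ContDiff Topology
open Filter Set Metric

universe u v w

namespace Run7.h56.PR

open Pool.Agent.H718R2.G Pool.Agent.TH80.OMS Run7.h619.AA Run7.h619.PR

section

variable {k : ℕ} {M : Type v} [TopologicalSpace M] [ChartedSpace (V k) M]

/-- In the coordinates `θ` the derivative of `H` maps the frame `A` at `p` to the frame `A'` at `p'`, up to `P`. -/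
structure Tr (θ : M → (V k ≃L[ℝ] V k)) (H : M → M) (p : M) (A : V k →L[ℝ] V k) (p' : M)
    (A' P : V k →L[ℝ] V k) : Prop where
  map : H p = p'
  diff : MDifferentiableAt (𝓡 k) (𝓡 k) H p
  der : ∀ v, θ p' (dv k H p ((θ p).symm (A v))) = A' (P v)

lemma dv_comp {H H' : M → M} {p : M} (h : MDifferentiableAt (𝓡 k) (𝓡 k) H p)
    (h' : MDifferentiableAt (𝓡 k) (𝓡 k) H' (H p)) (v : V k) :
    dv k (H' ∘ H) p v = dv k H' (H p) (dv k H p v) := by
  have h1 := mfderiv_comp p h' h
  exact congrArg (fun L => L v) h1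

lemma Tr.comp {θ : M → (V k ≃L[ℝ] V k)} {H H' : M → M} {p p' p'' : M} {A A' A'' P P' : V k →L[ℝ] V k}
    (h : Tr θ H p A p' A' P) (h' : Tr θ H' p' A' p'' A'' P') :
    Tr θ (H' ∘ H) p A p'' A'' (P' ∘L P) := by
  have hm := h.map
  subst hm
  refine ⟨h'.map, h'.diff.comp p h.diff, fun v => ?_⟩
  rw [dv_comp h.diff h'.diff]
  have h1 : dv k H p ((θ p).symm (A v)) = (θ (H p)).symm (A' (P v)) := by
    rw [← h.der v, ContinuousLinearEquiv.symm_apply_apply]
  rw [h1, h'.der]
  rfl

lemma Tr.id (θ : M → (V k ≃L[ℝ] V k)) (p : M) (A : V k →L[ℝ] V k) :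
    Tr θ _root_.id p A p A (ContinuousLinearMap.id ℝ (V k)) := by
  refine ⟨rfl, mdifferentiableAt_id, fun v => ?_⟩
  have h1 : dv k (_root_.id : M → M) p = ContinuousLinearMap.id ℝ (V k) := mfderiv_id
  rw [h1]
  simp

/-- the composition of the maps `h 0, …, h (t - 1)` -/
def Hit (h : ℕ → M → M) : ℕ → M → M
  | 0 => _root_.id
  | t + 1 => h t ∘ Hit h t

omit [TopologicalSpace M] [ChartedSpace (V k) M] in
lemma ut_id : UT (ContinuousLinearMap.id ℝ (V k)) := by
  intro i j hij
  simp [hij.ne']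

lemma dg_id (i : Fin k) : dg (ContinuousLinearMap.id ℝ (V k)) i = 1 := by
  simp [dg]

lemma ut_smul (c : ℝ) : UT (c • ContinuousLinearMap.id ℝ (V k)) := by
  intro i j hij
  simp [hij.ne']

lemma dg_smul (c : ℝ) (i : Fin k) : dg (c • ContinuousLinearMap.id ℝ (V k)) i = c := by
  simp [dg]

lemma gr_succ (R : ℕ → (V k →L[ℝ] V k)) (i : Fin k) (t : ℕ) :
    gr R i (t + 1) = gr R i t + Real.log (dg (R t) i) := by
  simp [gr, Finset.sum_range_succ]

/-- The pattern is followed. -/
lemma follow (hUT : ∀ P P' : V k →L[ℝ] V k, UT P → UT P' → UT (P' ∘L P) ∧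
      ∀ i, dg (P' ∘L P) i = dg P' i * dg P i)
    {θ : M → (V k ≃L[ℝ] V k)} {f : M → M} {x : ℕ → M} {E R : ℕ → (V k →L[ℝ] V k)}
    (hch : Chain f θ x E R) (hf : ∀ p, MDifferentiableAt (𝓡 k) (𝓡 k) f p)
    (h : ℕ → M → M) (T S D : ℕ → ℕ) (K : ℕ) (τ : ℕ → M → M) (c : ℝ) (i₀ : Fin k)
    (hT0 : T 0 = 0) (hT : ∀ i < K, T (i + 1) = T i + (S (i + 1) - D i))
    (hSD : ∀ i < K, D i < S (i + 1))
    (hjump : ∀ i < K, Tr θ (τ i) (x (S i)) (E (S i)) (x (D i)) (E (D i))
      (Real.exp c • ContinuousLinearMap.id ℝ (V k)))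
    (h1 : ∀ i < K, h (T i) = f ∘ τ i)
    (h2 : ∀ i < K, ∀ s, 1 ≤ s → s < S (i + 1) - D i → h (T i + s) = f) :
    ∀ i ≤ K, ∃ P : V k →L[ℝ] V k, UT P ∧
      dg P i₀ = Real.exp (∑ u ∈ Finset.range i, (c + (gr R i₀ (S (u + 1)) - gr R i₀ (D u)))) ∧
      Tr θ (Hit h (T i)) (x (S 0)) (E (S 0)) (x (S i)) (E (S i)) P := by
  have hstep : ∀ t, Tr θ f (x t) (E t) (x (t + 1)) (E (t + 1)) (R t) := fun t =>
    ⟨hch.orb t, hf _, hch.map t⟩
  have hR : ∀ t, dg (R t) i₀ = Real.exp (gr R i₀ (t + 1) - gr R i₀ t) := fun t => by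
    rw [gr_succ, add_sub_cancel_left, Real.exp_log (hch.pos t i₀)]
  intro i
  induction i with
  | zero =>
    intro _
    refine ⟨ContinuousLinearMap.id ℝ (V k), ut_id, by simp [dg_id], ?_⟩
    rw [hT0]
    exact Tr.id θ _ _
  | succ i ih =>
    intro hi
    obtain ⟨P, hP1, hP2, hP3⟩ := ih (by omega)
    have hseg : ∀ s, 1 ≤ s → s ≤ S (i + 1) - D i → ∃ P' : V k →L[ℝ] V k, UT P' ∧
        dg P' i₀ = Real.exp (c + (gr R i₀ (D i + s) - gr R i₀ (D i))) * dg P i₀ ∧
        Tr θ (Hit h (T i + s)) (x (S 0)) (E (S 0)) (x (D i + s)) (E (D i + s)) P' := by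
      intro s
      induction s with
      | zero => intro h0; omega
      | succ s ihs =>
        intro _ hs
        rcases Nat.eq_zero_or_pos s with h0 | h0
        · subst h0
          have a1 := hUT _ _ hP1 (ut_smul (Real.exp c))
          have a2 := hUT _ _ a1.1 (hch.ut (D i))
          refine ⟨_, a2.1, ?_, ?_⟩
          rotate_left
          · have e1 : Hit h (T i + (0 + 1)) = f ∘ (τ i ∘ Hit h (T i)) := by
              show h (T i + 0) ∘ Hit h (T i + 0) = _
              rw [add_zero, h1 i (by omega)]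
              rfl
            rw [e1, zero_add]
            exact (hP3.comp (hjump i (by omega))).comp (hstep (D i))
          · rw [a2.2, a1.2, dg_smul, hR, zero_add, Real.exp_add]
            ring
        · obtain ⟨P', b1, b2, b3⟩ := ihs h0 (by omega)
          have a2 := hUT _ _ b1 (hch.ut (D i + s))
          refine ⟨_, a2.1, ?_, ?_⟩
          rotate_left
          · have e1 : Hit h (T i + (s + 1)) = f ∘ Hit h (T i + s) := by
              show h (T i + s) ∘ Hit h (T i + s) = _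
              rw [h2 i (by omega) s h0 (by omega)]
            rw [e1]
            exact b3.comp (hstep (D i + s))
          · rw [a2.2, b2, hR, ← mul_assoc, ← Real.exp_add]
            congr 2
            rw [← add_assoc (D i) s 1]
            ring
    obtain ⟨P', b1, b2, b3⟩ := hseg (S (i + 1) - D i) (by have := hSD i (by omega); omega) le_rfl
    refine ⟨P', b1, ?_, ?_⟩
    · rw [b2, hP2, Finset.sum_range_succ, ← Real.exp_add]
      congr 1
      rw [show D i + (S (i + 1) - D i) = S (i + 1) by have := hSD i (by omega); omega]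
      ring
    · rw [hT i (by omega)]
      rw [show D i + (S (i + 1) - D i) = S (i + 1) by have := hSD i (by omega); omega] at b3
      exact b3

end

end Run7.h56.PR
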