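import Pool.Agent.Run7.h619.PR.Iface
import Pool.Agent.Run7.h56.PR.CHa

/-!
# CH (project PR of helper619): no resonances
-/

set_option autoImplicit false

open scoped Manifold ContDiff Topology
open Filter Set Metric

universe u v w

namespace Run7.h56.PR

open Pool.Agent.H718R2.G Pool.Agent.TH80.OMS Run7.h619.AA Run7.h619.PR Pool.Agent.Y504.CO

lemma exists_min {C : ℕ} (P : Fin C → Fin C → ℝ → Prop) (h : ∀ c c', ∃ δ : ℝ, 0 < δ ∧ P c c' δ)
    (hmono : ∀ c c' δ δ', 0 < δ' → δ' ≤ δ → P c c' δ → P c c' δ') : ∃ δ : ℝ, 0 < δ ∧ ∀ c c', P c c' δ := by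
  choose d hd hP using h
  rcases isEmpty_or_nonempty (Fin C × Fin C) with he | hne
  · exact ⟨1, one_pos, fun c c' => (he.false (c, c')).elim⟩
  · obtain ⟨q, hq⟩ := Finite.exists_min (fun q : Fin C × Fin C => d q.1 q.2)
    exact ⟨d q.1 q.2, hd _ _, fun c c' => hmono _ _ _ _ (hd _ _) (hq (c, c')) (hP c c')⟩

/-- The pattern: first `m₁` letters `1`, then `m₀` letters `0`, periodically. -/
def pat (m₀ m₁ : ℕ) (i : ℕ) : Fin 2 := if i % (m₁ + m₀) < m₁ then 1 else 0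

lemma pat_K (m₀ m₁ : ℕ) : pat m₀ m₁ (m₁ + m₀) = pat m₀ m₁ 0 := by
  unfold pat
  rw [Nat.mod_self, Nat.zero_mod]

lemma pat_sum (m₀ m₁ : ℕ) (φ : Fin 2 → ℝ) :
    ∑ u ∈ Finset.range (m₁ + m₀), φ (pat m₀ m₁ u) = m₀ * φ 0 + m₁ * φ 1 := by
  rw [Finset.sum_range_add]
  have h1 : ∑ u ∈ Finset.range m₁, φ (pat m₀ m₁ u) = ∑ u ∈ Finset.range m₁, φ 1 := by
    refine Finset.sum_congr rfl fun u hu => ?_
    have hu' := Finset.mem_range.mp hu
    rw [pat, Nat.mod_eq_of_lt (by omega), if_pos hu']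
  have h2 : ∑ u ∈ Finset.range m₀, φ (pat m₀ m₁ (m₁ + u)) = ∑ u ∈ Finset.range m₀, φ 0 := by
    refine Finset.sum_congr rfl fun u hu => ?_
    have hu' := Finset.mem_range.mp hu
    rw [pat, Nat.mod_eq_of_lt (by omega), if_neg (by omega)]
  rw [h1, h2]
  simp
  ring

lemma tele (K : ℕ) (c : ℝ) (s d : ℕ → ℝ) (hK : s K = s 0) :
    ∑ u ∈ Finset.range K, (c + (s (u + 1) - d u)) = ∑ u ∈ Finset.range K, (c + (s u - d u)) := by
  have h1 := Finset.sum_range_sub s K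
  rw [hK, sub_self] at h1
  have h2 : ∑ u ∈ Finset.range K, (c + (s (u + 1) - d u)) =
      ∑ u ∈ Finset.range K, (c + (s u - d u)) + ∑ u ∈ Finset.range K, (s (u + 1) - s u) := by
    rw [← Finset.sum_add_distrib]
    exact Finset.sum_congr rfl fun u _ => by ring
  rw [h2, h1, add_zero]

theorem t_CH : S_JET.{v} → S_PERT.{u, v, w} → S_BASE.{w} → S_NH.{u, v, w} → S_TRU → S_CH.{u, v, w} := by
  intro hJ hP hB hN hT k b n M B N _ _ _ _ _ _ _ _ _ _ _ _ _ _ r hr Θ f g F U π z ζ hD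
  obtain ⟨θ, C, j, τ, τ', hτ, hq, hJ⟩ := hJ k M
  have hg : Continuous (g : B → B) := g.continuous
  obtain ⟨O, hO, hzO, hOd, hB⟩ := hB B g hg π z ζ hD.loops hD.shadow
  obtain ⟨W, hW, hP⟩ := hP k b n M B N r hr Θ f g F hD.map U hD.isOpen hD.mem (fun l => ζ l 0) O hO hzO hOd
  obtain ⟨ℓ, hℓ, hB⟩ := hB W hW
  have hfam : ∀ c c' : Fin C, ∀ l : Fin 2, MFam j k M ((![τ c, τ c'] : Fin 2 → V j → M → M) l)
      ((![τ' c, τ' c'] : Fin 2 → V j → M → M) l) := by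
    intro c c' l
    fin_cases l
    · exact hτ c
    · exact hτ c'
  obtain ⟨δ, hδ, hP⟩ := exists_min (C := C) (fun c c' δ => ∀ a : Fin 2 → V j, (∀ l, ‖a l‖ < δ) →
      ∃ (G : DiffM n N r) (Φ : B → M → M), G ∈ U ∧
      IsSk Θ f g Φ G ∧ (∀ y, (∀ l, y ∉ O l) → ∀ x, Φ y x = x) ∧
      (∀ l, ∀ y ∈ W l, ∀ x, Φ y x = (![τ c, τ c'] : Fin 2 → V j → M → M) l (a l) x))
    (fun c c' => hP j _ _ (hfam c c'))
    (fun c c' δ δ' h1 h2 h3 a ha => h3 a fun l => (ha l).trans_le h2)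
  obtain ⟨Q, ε, col, hε, hJ⟩ := hJ δ hδ
  refine ⟨θ, Q, ℓ, ε, col, hε, hℓ, hq, ?_⟩
  intro x E R hch i₀ t₁ t₂ a b' hcol1 hπ1 hta hab hbt hπ2 hπ3 hcol2 m₀ m₁ hm₀
  by_contra hcon
  rw [not_lt] at hcon
  -- the jumps
  obtain ⟨c₀, hc₀⟩ := hJ (x t₂) (x t₁) (E t₂) (E t₁) (hch.iso _) (hch.iso _) hcol1
  obtain ⟨c₁, hc₁⟩ := hJ (x b') (x a) (E b') (E a) (hch.iso _) (hch.iso _) hcol2
  have hm : (0 : ℝ) < (m₀ : ℝ) + m₁ := by
    have : (1 : ℝ) ≤ (m₀ : ℝ) := by exact_mod_cast hm₀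
    positivity
  set σ : ℝ := gr R i₀ t₂ - gr R i₀ t₁ with hσ
  set β : ℝ := gr R i₀ b' - gr R i₀ a with hβ
  set t : ℝ := -((m₀ * σ + m₁ * β) / (m₀ + m₁)) with ht
  have htε : |t| ≤ ε := by
    rw [ht, abs_neg, abs_div, abs_of_pos hm, div_le_iff₀ hm]
    exact hcon
  obtain ⟨a₀, ha₀, hj0, hj0'⟩ := hc₀ t htε
  obtain ⟨a₁, ha₁, hj1, hj1'⟩ := hc₁ t htε
  obtain ⟨G, Φ, hGU, hSk, hΦ1, hΦ2⟩ := hP c₀ c₁ ![a₀, a₁] (by
    intro l
    fin_cases l
    · exact ha₀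
    · exact ha₁)
  -- the pattern
  let K := m₁ + m₀
  let S : Fin 2 → ℕ := ![t₂, b']
  let D : Fin 2 → ℕ := ![t₁, a]
  have hgap : ∀ l l' : Fin 2, D l + ℓ ≤ S l' ∧ π ∣ S l' - D l := by
    have e1 : π ∣ t₂ - a := by
      have := Nat.dvd_sub hπ1 hπ2
      rwa [show t₂ - t₁ - (a - t₁) = t₂ - a by omega] at this
    have e2 : π ∣ b' - a := by
      have := Nat.dvd_sub hπ3 hπ2
      rwa [show b' - t₁ - (a - t₁) = b' - a by omega] at this
    intro l l'
    fin_cases l <;> fin_cases l'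
    · exact ⟨show t₁ + ℓ ≤ t₂ by omega, hπ1⟩
    · exact ⟨show t₁ + ℓ ≤ b' by omega, hπ3⟩
    · exact ⟨show a + ℓ ≤ t₂ by omega, e1⟩
    · exact ⟨show a + ℓ ≤ b' by omega, e2⟩
  let ι : ℕ → Fin 2 := pat m₀ m₁
  have hιK : ι K = ι 0 := pat_K m₀ m₁
  let T : ℕ → ℕ := fun i => ∑ u ∈ Finset.range i, (S (ι (u + 1)) - D (ι u))
  have hT0 : T 0 = 0 := rfl
  have hTs : ∀ i, T (i + 1) = T i + (S (ι (i + 1)) - D (ι i)) := fun i => Finset.sum_range_succ _ _
  have hK : 1 ≤ K := by simp only [K]; omega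
  have hTℓ : ∀ i, T i + ℓ ≤ T (i + 1) := fun i => by
    have := (hgap (ι i) (ι (i + 1))).1
    rw [hTs]
    omega
  have hTπ : ∀ i, π ∣ T i := fun i => Finset.dvd_sum fun u _ => (hgap (ι u) (ι (u + 1))).2
  have hTm : StrictMono T := strictMono_nat_of_lt_succ fun i => by have := hTℓ i; omega
  obtain ⟨y, hy1, hy2, hy3⟩ := hB K T ι hK hT0 (fun i _ => hTℓ i) (fun i _ => hTπ i)
  -- the fibre maps
  let h : ℕ → M → M := fun s => f ∘ Φ (g^[s] y)
  let τs : ℕ → M → M := fun i => (![τ c₀, τ c₁] : Fin 2 → V j → M → M) (ι i) ((![a₀, a₁] : Fin 2 → V j) (ι i))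
  have hτd : ∀ (c : Fin C) (a : V j) (p : M), MDifferentiableAt (𝓡 k) (𝓡 k) (τ c a) p := by
    intro c a p
    have h1 := (hτ c).smooth
    have h2 : ContMDiff (𝓡 k) ((𝓡 j).prod (𝓡 k)) ∞ (fun x : M => ((a, x) : V j × M)) :=
      contMDiff_const.prodMk contMDiff_id
    exact (h1.comp h2).mdifferentiable (by simp) p
  have hf : ∀ p, MDifferentiableAt (𝓡 k) (𝓡 k) (f : M → M) p := by
    intro p
    refine f.contMDiff.mdifferentiable ?_ p
    intro h0
    have h1 : r = 0 := by exact_mod_cast h0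
    rw [h1] at hr
    exact absurd hr (by simp)
  have hjump : ∀ i, Tr θ (τs i) (x (S (ι i))) (E (S (ι i))) (x (D (ι i))) (E (D (ι i)))
      (Real.exp t • ContinuousLinearMap.id ℝ (V k)) := by
    intro i
    have hl : ∀ l : Fin 2, Tr θ ((![τ c₀, τ c₁] : Fin 2 → V j → M → M) l ((![a₀, a₁] : Fin 2 → V j) l))
        (x (S l)) (E (S l)) (x (D l)) (E (D l)) (Real.exp t • ContinuousLinearMap.id ℝ (V k)) := by
      intro l
      fin_cases l
      · refine ⟨hj0, hτd _ _ _, fun v => ?_⟩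
        refine (hj0' v).trans ?_
        show Real.exp t • E t₁ v = E t₁ (Real.exp t • v)
        rw [map_smul]
      · refine ⟨hj1, hτd _ _ _, fun v => ?_⟩
        refine (hj1' v).trans ?_
        show Real.exp t • E a v = E a (Real.exp t • v)
        rw [map_smul]
    exact hl (ι i)
  obtain ⟨P, hP1, hP2, hP3⟩ := follow (fun P P' => (hT k).1 P P') hch hf h T (fun i => S (ι i)) (fun i => D (ι i)) K
    τs t i₀ hT0 (fun i _ => hTs i) (fun i _ => by
      have := (hgap (ι i) (ι (i + 1))).1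
      show D (ι i) < S (ι (i + 1))
      omega) (fun i _ => hjump i)
    (fun i hi => by
      show f ∘ Φ (g^[T i] y) = f ∘ τs i
      congr 1
      funext p
      exact hΦ2 (ι i) _ (hy2 i hi) p)
    (fun i hi s hs1 hs2 => by
      show f ∘ Φ (g^[T i + s] y) = f
      have h3 : T i + s < T (i + 1) := by
        have := hTs i
        omega
      have h4 : T (i + 1) ≤ T K := hTm.monotone (by omega)
      have h5 : Φ (g^[T i + s] y) = id := by
        funext p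
        refine hΦ1 _ (hy3 (T i + s) (by omega) ?_) p
        intro i' hi' he
        rcases le_or_gt i' i with hle | hgt
        · have := hTm.monotone hle
          omega
        · have := hTm.monotone (show i + 1 ≤ i' by omega)
          omega
      rw [h5]
      rfl) K le_rfl
  -- the diagonal entry is one
  have hone : dg P i₀ = 1 := by
    rw [hP2, tele K t (fun u => gr R i₀ (S (ι u))) (fun u => gr R i₀ (D (ι u))) (by simp only [hιK])]
    have e1 := pat_sum m₀ m₁ (fun l => t + (gr R i₀ (S l) - gr R i₀ (D l)))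
    have e2 : ∑ u ∈ Finset.range K, (t + (gr R i₀ (S (ι u)) - gr R i₀ (D (ι u)))) =
        m₀ * (t + σ) + m₁ * (t + β) := e1
    rw [e2]
    have e3 : (m₀ : ℝ) * (t + σ) + m₁ * (t + β) = 0 := by
      have : t * ((m₀ : ℝ) + m₁) = -(m₀ * σ + m₁ * β) := by
        rw [ht]
        field_simp
      linarith
    rw [e3, Real.exp_zero]
  obtain ⟨w, hw0, hw⟩ := (hT k).2 P i₀ hP1 hone
  -- the periodic point
  have hX0 : (fun i => S (ι i)) K = (fun i => S (ι i)) 0 := by simp only [hιK]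
  have hGit : ∀ (s : ℕ) (X : M), G^[s] (Θ.pt X y) = Θ.pt (Hit h s X) (g^[s] y) := by
    intro s
    induction s with
    | zero => intro X; rfl
    | succ s ih =>
      intro X
      rw [Function.iterate_succ_apply', ih, hSk, Function.iterate_succ_apply']
      rfl
  have hper : ∀ X : M, G^[T K] (Θ.pt X y) = Θ.pt (Hit h (T K) X) y := fun X => by
    rw [hGit, hy1]
  have hTK : 1 ≤ T K := by
    have := hTℓ 0
    have := hTm.monotone hK
    have h1 : T (0 + 1) ≤ T K := this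
    omega
  have hmap : Hit h (T K) (x (S (ι 0))) = x (S (ι 0)) := by
    rw [hP3.map]
    simp only [hιK]
  have hder : dv k (Hit h (T K)) (x (S (ι 0))) ((θ (x (S (ι 0)))).symm (E (S (ι 0)) w)) =
      (θ (x (S (ι 0)))).symm (E (S (ι 0)) w) := by
    have h1 := hP3.der w
    simp only [hιK] at h1
    rw [hw] at h1
    exact ((θ (x (S (ι 0)))).eq_symm_apply).mpr h1
  refine hN k b n M B N r hr Θ G (T K) (Hit h (T K)) (x (S (ι 0))) y _ hTK hper hP3.diff hmap ?_ hder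
    (hD.hyp G hGU _ ⟨T K, hTK, ?_⟩)
  · intro h0
    rw [ContinuousLinearEquiv.map_eq_zero_iff] at h0
    have h1 := hch.iso (S (ι 0)) w
    rw [h0, norm_zero] at h1
    exact hw0 (norm_eq_zero.mp h1.symm)
  · rw [hper, hmap]

end Run7.h56.PR
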